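import Pool.Agent.Run7.h567.PD.Iface
import Pool.Agent.Run7.h567.GO.CLS

/-!
# PD (helper567), piece FO: finite order
-/

set_option autoImplicit false

namespace Pool.Agent.Run7.h863.PD

open Matrix Run7.h567.GO Run7.h567.PD

section

variable {Γ : Type} [Group Γ] {E : Type} [Field E]

/-- subquotients of the same dimension are conjugate -/
theorem conj_of_subQ {n : ℕ} {ρ τ : MRep Γ E n} (h : SubQ ρ τ) :
    ∃ P : Matrix (Fin n) (Fin n) E, P.det ≠ 0 ∧ ∀ g, P * τ g = ρ g * P := by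
  obtain ⟨U, P, S, hU, hPS, hS, he⟩ := CLS.MF.of_subQ h
  have hSP : S * P = 1 := mul_eq_one_comm.1 hPS
  have hUt : ∀ v, v ∈ U := fun v => by
    have h1 := hS (P *ᵥ v)
    rwa [mulVec_mulVec, hSP, one_mulVec] at h1
  refine ⟨P, ?_, fun g => ?_⟩
  · intro h0
    have h1 := congrArg Matrix.det hPS
    rw [det_mul, h0, zero_mul, det_one] at h1
    exact zero_ne_one h1
  · refine Matrix.toLin'.injective (LinearMap.ext fun v => ?_)
    rw [Matrix.toLin'_apply, Matrix.toLin'_apply, ← mulVec_mulVec, ← mulVec_mulVec]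
    exact he g v (hUt v)

theorem det_of_subQ {n : ℕ} {ρ τ : MRep Γ E n} (h : SubQ ρ τ) (g : Γ) :
    (ρ g).det = (τ g).det := by
  obtain ⟨P, hP, h1⟩ := conj_of_subQ h
  have h2 := congrArg Matrix.det (h1 g)
  rw [det_mul, det_mul, mul_comm] at h2
  exact (mul_right_cancel₀ hP h2).symm

theorem trace_sq (A : Matrix (Fin 2) (Fin 2) E) : (Run7.h567.PD.sq A).trace = A.trace ^ 2 - A.det := by
  simp only [Run7.h567.PD.sq, Matrix.trace, Fin.sum_univ_three, Matrix.diag_apply, Fin.sum_univ_two,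
    Matrix.det_fin_two]
  simp
  ring

theorem det_sq (A : Matrix (Fin 2) (Fin 2) E) : (Run7.h567.PD.sq A).det = A.det ^ 3 := by
  rw [Matrix.det_fin_three, Matrix.det_fin_two]
  simp [Run7.h567.PD.sq]
  ring

theorem det_ne {n : ℕ} (ρ : MRep Γ E n) (g : Γ) : (ρ g).det ≠ 0 := by
  intro h
  have h1 : ρ g * ρ g⁻¹ = 1 := by rw [← map_mul, mul_inv_cancel, map_one]
  have h2 := congrArg Matrix.det h1
  rw [det_mul, h, zero_mul, det_one] at h2
  exact zero_ne_one h2

theorem chr_ne (ψ : Γ →* E) (g : Γ) : ψ g ≠ 0 := by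
  intro h
  have h1 : ψ g * ψ g⁻¹ = 1 := by rw [← map_mul, mul_inv_cancel, map_one]
  rw [h, zero_mul] at h1
  exact zero_ne_one h1

theorem trace_tw {V W : MRep Γ E 2} {ψ : Γ →* E} (h : TwistOf V W ψ) (g : Γ) :
    (W g).trace = ψ g * (V g).trace ∧ (W g).det = ψ g ^ 2 * (V g).det := by
  obtain ⟨P, hP, h1⟩ := h
  have hu : IsUnit P.det := isUnit_iff_ne_zero.2 hP
  constructor
  · have h2 : W g = ψ g • (P * V g) * P⁻¹ := by
      rw [← h1 g, Matrix.mul_assoc, Matrix.mul_nonsing_inv P hu, Matrix.mul_one]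
    rw [h2, Matrix.smul_mul, Matrix.trace_smul, Matrix.trace_mul_comm, ← Matrix.mul_assoc,
      Matrix.nonsing_inv_mul P hu, Matrix.one_mul, smul_eq_mul]
  · have h2 := congrArg Matrix.det (h1 g)
    rw [det_mul, Matrix.det_smul, det_mul, Fintype.card_fin] at h2
    have h3 : ((W g).det - ψ g ^ 2 * (V g).det) * P.det = 0 := by linear_combination h2
    rcases mul_eq_zero.1 h3 with h4 | h4
    · exact sub_eq_zero.1 h4
    · exact absurd h4 hP

theorem F_eq {V W : MRep Γ E 2} {ψ : Γ →* E} (h : TwistOf V W ψ) (g : Γ) :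
    F V W g = (V g).det * (-ψ g + 2 * ψ g ^ 2 - ψ g ^ 3) * (Run7.h567.PD.sq (V g)).trace +
      (V g).det ^ 2 * (1 - ψ g - ψ g ^ 3 + ψ g ^ 4) := by
  obtain ⟨h1, h2⟩ := trace_tw h g
  unfold F
  rw [h1, h2, trace_sq]
  ring

theorem det_tw {n : ℕ} (χ : Γ →* E) (ρ : MRep Γ E n) (g : Γ) :
    (tw χ ρ g).det = χ g ^ n * (ρ g).det := by
  change (χ g • ρ g).det = _
  rw [Matrix.det_smul, Fintype.card_fin]

/-- an irreducible representation of dimension three is not scalar -/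
theorem not_scalar {S : MRep Γ E 3} (hS : Irred S) (χ : Γ →* E) :
    ¬ SubQ S (tw χ (1 : MRep Γ E 3)) := by
  intro h
  obtain ⟨P, hP, h1⟩ := conj_of_subQ h
  have hu : IsUnit P.det := isUnit_iff_ne_zero.2 hP
  have h2 : ∀ g, S g = χ g • (1 : Matrix (Fin 3) (Fin 3) E) := by
    intro g
    have h3 : P * (χ g • (1 : Matrix (Fin 3) (Fin 3) E)) = S g * P := h1 g
    have h4 : S g * P * P⁻¹ = S g := by
      rw [Matrix.mul_assoc, Matrix.mul_nonsing_inv P hu, Matrix.mul_one]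
    rw [← h4, ← h3, Matrix.mul_smul, Matrix.mul_one, Matrix.smul_mul,
      Matrix.mul_nonsing_inv P hu]
  have h5 := hS.2 (Submodule.span E {(Pi.single 0 1 : Fin 3 → E)}) (by
    intro g u hu
    rw [h2 g, Matrix.smul_mulVec, Matrix.one_mulVec]
    exact Submodule.smul_mem _ _ hu)
  rcases h5 with h6 | h6
  · have h7 : (Pi.single 0 1 : Fin 3 → E) ∈ (⊥ : Submodule E (Fin 3 → E)) := by
      rw [← h6]
      exact Submodule.mem_span_singleton_self _
    have h8 := congrFun ((Submodule.mem_bot E).1 h7) 0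
    simp at h8
  · have h7 : (Pi.single 1 1 : Fin 3 → E) ∈ Submodule.span E {(Pi.single 0 1 : Fin 3 → E)} := by
      rw [h6]
      trivial
    obtain ⟨c, hc⟩ := Submodule.mem_span_singleton.1 h7
    have h8 := congrFun hc 1
    simp at h8

end

theorem t_FO : S_LI → S_SYM → S_FO := by
  intro hLI hSYM Γ _ E _ _ _ V W ψ H hHn hHf z hV hW hF
  set x : H →* E := ψ.comp H.subtype with hx
  set a : H →* E := detR (Run7.h567.PD.res V H) with ha
  set S : MRep H E 3 := tw (a * x) (sym2 (Run7.h567.PD.res V H)) with hS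
  have hSI : Irred S := hSYM H E (Run7.h567.PD.res V H) (a * x) (SI.res hV H)
  set b : E := (V z).det with hb
  set y : E := ψ z with hy
  set D : Matrix (Fin 3) (Fin 3) E := Matrix.diagonal ![1, 0, 0] with hD
  have hDt : ∀ c e : E, ((c • (1 : Matrix (Fin 3) (Fin 3) E)) * (e • D)).trace = c * e := by
    intro c e
    rw [Matrix.smul_mul, Matrix.one_mul, Matrix.trace_smul, Matrix.trace_smul, hD,
      Matrix.trace_diagonal]
    simp [Fin.sum_univ_three]
  set T : Fin 6 → MRep H E 3 := ![tw (a * x ^ 2) (sym2 (Run7.h567.PD.res V H)),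
    tw (a * x ^ 3) (sym2 (Run7.h567.PD.res V H)), tw (a ^ 2) 1, tw (a ^ 2 * x) 1,
    tw (a ^ 2 * x ^ 3) 1, tw (a ^ 2 * x ^ 4) 1] with hT
  set Y : Fin 6 → Matrix (Fin 3) (Fin 3) E := ![(2 * b * y ^ 2) • Run7.h567.PD.sq (V z),
    (-(b * y ^ 3)) • Run7.h567.PD.sq (V z), (b ^ 2) • D, (-(b ^ 2 * y)) • D, (-(b ^ 2 * y ^ 3)) • D,
    (b ^ 2 * y ^ 4) • D] with hY
  have hb0 : b ≠ 0 := det_ne V z
  have hy0 : y ≠ 0 := chr_ne ψ z
  have key : ∃ j : Fin 6, SubQ S (T j) := by
    by_contra hcon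
    rw [not_exists] at hcon
    have h1 := hLI H E 3 S 6 (fun _ => 3) T hSI hcon ((b * y) • Run7.h567.PD.sq (V z)) Y (by
      intro h
      have h2 := hF h.1 h.2
      rw [F_eq hW, map_mul, map_mul, det_mul, sq_mul] at h2
      have e0 : (S h * ((b * y) • Run7.h567.PD.sq (V z))).trace =
          (V h.1).det * ψ h.1 * (b * y) * (Run7.h567.PD.sq (V h.1) * Run7.h567.PD.sq (V z)).trace := by
        change (((V h.1).det * ψ h.1) • Run7.h567.PD.sq (V h.1) * ((b * y) • Run7.h567.PD.sq (V z))).trace = _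
        rw [Matrix.smul_mul, Matrix.mul_smul, Matrix.trace_smul, Matrix.trace_smul, smul_eq_mul,
          smul_eq_mul]
        ring
      have e1 : (T 0 h * Y 0).trace =
          (V h.1).det * ψ h.1 ^ 2 * (2 * b * y ^ 2) * (Run7.h567.PD.sq (V h.1) * Run7.h567.PD.sq (V z)).trace := by
        change (((V h.1).det * ψ h.1 ^ 2) • Run7.h567.PD.sq (V h.1) * ((2 * b * y ^ 2) • Run7.h567.PD.sq (V z))).trace = _
        rw [Matrix.smul_mul, Matrix.mul_smul, Matrix.trace_smul, Matrix.trace_smul, smul_eq_mul,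
          smul_eq_mul]
        ring
      have e2 : (T 1 h * Y 1).trace =
          (V h.1).det * ψ h.1 ^ 3 * (-(b * y ^ 3)) * (Run7.h567.PD.sq (V h.1) * Run7.h567.PD.sq (V z)).trace := by
        change (((V h.1).det * ψ h.1 ^ 3) • Run7.h567.PD.sq (V h.1) * ((-(b * y ^ 3)) • Run7.h567.PD.sq (V z))).trace = _
        rw [Matrix.smul_mul, Matrix.mul_smul, Matrix.trace_smul, Matrix.trace_smul, smul_eq_mul,
          smul_eq_mul]
        ring
      have e3 : (T 2 h * Y 2).trace = (V h.1).det ^ 2 * b ^ 2 := hDt _ _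
      have e4 : (T 3 h * Y 3).trace = (V h.1).det ^ 2 * ψ h.1 * (-(b ^ 2 * y)) := hDt _ _
      have e5 : (T 4 h * Y 4).trace = (V h.1).det ^ 2 * ψ h.1 ^ 3 * (-(b ^ 2 * y ^ 3)) := hDt _ _
      have e6 : (T 5 h * Y 5).trace = (V h.1).det ^ 2 * ψ h.1 ^ 4 * (b ^ 2 * y ^ 4) := hDt _ _
      rw [Fin.sum_univ_six, e0, e1, e2, e3, e4, e5, e6]
      linear_combination -h2)
    have h3 := congrArg Matrix.det h1
    rw [Matrix.det_smul, det_sq, Fintype.card_fin, Matrix.det_zero] at h3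
    exact absurd h3 (mul_ne_zero (pow_ne_zero _ (mul_ne_zero hb0 hy0)) (pow_ne_zero _ hb0))
  have h6 : ∀ h : H, ψ h.1 ^ 6 = 1 := by
    intro h
    have hx0 : ψ h.1 ≠ 0 := chr_ne ψ h.1
    have ha0 : (V h.1).det ≠ 0 := det_ne V h.1
    obtain ⟨j, hj⟩ := key
    have hdS : (S h).det = ((V h.1).det * ψ h.1) ^ 3 * (V h.1).det ^ 3 := by
      rw [hS, det_tw]
      change _ * (Run7.h567.PD.sq (V h.1)).det = _
      rw [det_sq]
      rfl
    fin_cases j
    · have h1 := det_of_subQ hj h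
      have h2 : (T 0 h).det = ((V h.1).det * ψ h.1 ^ 2) ^ 3 * (V h.1).det ^ 3 := by
        change (tw (a * x ^ 2) (sym2 (Run7.h567.PD.res V H)) h).det = _
        rw [det_tw]
        change _ * (Run7.h567.PD.sq (V h.1)).det = _
        rw [det_sq]
        rfl
      have h3 : (S h).det = (T 0 h).det := h1
      rw [hdS, h2] at h3
      have h4 : (V h.1).det ^ 6 * ψ h.1 ^ 3 * (ψ h.1 ^ 3 - 1) = 0 := by linear_combination -h3
      rcases mul_eq_zero.1 h4 with h5 | h5
      · exact absurd h5 (mul_ne_zero (pow_ne_zero _ ha0) (pow_ne_zero _ hx0))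
      · have h7 : ψ h.1 ^ 3 = 1 := sub_eq_zero.1 h5
        calc ψ h.1 ^ 6 = (ψ h.1 ^ 3) ^ 2 := by ring
          _ = 1 := by rw [h7, one_pow]
    · have h1 := det_of_subQ hj h
      have h2 : (T 1 h).det = ((V h.1).det * ψ h.1 ^ 3) ^ 3 * (V h.1).det ^ 3 := by
        change (tw (a * x ^ 3) (sym2 (Run7.h567.PD.res V H)) h).det = _
        rw [det_tw]
        change _ * (Run7.h567.PD.sq (V h.1)).det = _
        rw [det_sq]
        rfl
      have h3 : (S h).det = (T 1 h).det := h1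
      rw [hdS, h2] at h3
      have h4 : (V h.1).det ^ 6 * ψ h.1 ^ 3 * (ψ h.1 ^ 6 - 1) = 0 := by linear_combination -h3
      rcases mul_eq_zero.1 h4 with h5 | h5
      · exact absurd h5 (mul_ne_zero (pow_ne_zero _ ha0) (pow_ne_zero _ hx0))
      · exact sub_eq_zero.1 h5
    · exact absurd hj (not_scalar hSI _)
    · exact absurd hj (not_scalar hSI _)
    · exact absurd hj (not_scalar hSI _)
    · exact absurd hj (not_scalar hSI _)
  refine ⟨6 * H.index, Nat.mul_pos (by norm_num) (Nat.pos_of_ne_zero hHf.index_ne_zero),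
    fun g => ?_⟩
  have h7 := h6 ⟨g ^ H.index, H.pow_index_mem g⟩
  rw [mul_comm, pow_mul, ← map_pow]
  exact h7

end Pool.Agent.Run7.h863.PD
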